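import Pool.Agent.Lib.MP_24a1b5_co.Seq

set_option autoImplicit false
open N36365310

namespace Pool.Agent.Results.MP_24a1b5_co.LargeForests

/-- Every forest (in particular every tree) with at least `e ^ (10 ^ 8)` vertices has a unimodal
independence sequence. -/
theorem result {V : Type*} [Fintype V] (G : SimpleGraph V) (hG : G.IsAcyclic)
    (hV : Real.exp (10 ^ 8) ≤ (Fintype.card V : ℝ)) : UnimodalSeq (indepSeq G) :=
  Pool.Agent.Lib.MP_24a1b5_co.large_forest_unimodal G hG hV

end Pool.Agent.Results.MP_24a1b5_co.LargeForests
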