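import Pool.Agent.Lib.MP_24a1b5_co.Init.TailFinal
import Pool.Agent.Lib.MP_24a1b5_co.Init.Window2
import Pool.Agent.Lib.MP_24a1b5_co.InQ

/-!
# MP_24a1b5: where the independence sequence of a forest can fail to be monotonic

Let `G` be a finite forest with `n` vertices, independence number `α` and independence sequence
`(i_k)`, and let `μ = (∑ k i_k) / (∑ i_k)` be the mean size of an independent set.
* `i_k ≤ i_{k+1}` for every `k` such that `k + 18 √n < μ`, or `15 k + 11 √α + 73 ≤ 7 α`, or
  `11 k + 8 √n + 64 ≤ 3 n`, or `10 k + n + 14 √α + 78 ≤ 6 α`, or `45 k + 20 ≤ 18 α`, or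
  `4 k + 1 ≤ n`.
* `i_{k+1} ≤ i_k` for every `k` such that `μ + 38 √n ≤ k`, or `2 α + n + 5 √(k + 1) + 8 ≤ 6 k`, or
  `2 α ≤ 3 k + 1`.

Proof of the bounds with the mean. Let `w_j = i_j l ^ j` with `0 < l ≤ 6 / 5`. By induction over
rooted forests, with a potential at the root, for every `h : ℕ → ℝ`
`∑ w_j h_j² - (∑ w_j h_j)² / ∑ w_j ≤ 51 ∑ (j + 1) w_{j+1} (h_{j+1} - h_j)²`,
so that the sequence `w` has no deep valleys. Moreover the variance of the distribution proportional
to `w` is at most its mean, so that the mean at fugacity `l` is close to `μ` if `l` is close to `1`.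
On the other hand `(k + 1) i_{k+1}² ≤ i_k ((k + 2) i_{k+2} + 3 i_{k+1})`: after an ascent at `k` the
quotients `i_{j+1} / i_j` decrease slowly, and before a descent they increase slowly, backwards. So if
there is a descent at `k < μ - 18 √n`, the sequence `w` with `l = 1 - 27 / √n` decreases on a long
interval before `k`, although at least half of the mass lies after `k`: this is a deep valley. In the
same way for an ascent at `k ≥ μ + 38 √n`, with `l = 1 + 30 / √n`.

Proof of the other bounds. Let `I` be the independence polynomial. The sums of the first coefficients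
of `(9 + 6 x) I' - 7 α I`, `(8 + 3 x) I' - 3 n I` and `10 I' - (6 α - n) I` are nonnegative: for the
first one, `∑_{j ≤ k} (7 α - 15 j) i_j ≤ 9 (k + 1) i_{k+1}`; the tail sums of the coefficients of
`(2 α + n) I - 3 (1 + x) I'` are nonnegative: `∑_{j > k} (6 j - 2 α - n) i_j ≤ (2 α + n - 3 k) i_k`.
Before a descent or after an ascent at `k` about `√k` of the terms are not much smaller than `i_k`,
and the sums would be too large. The bounds `45 k + 20 ≤ 18 α` and `4 k + 1 ≤ n` come from
inequalities between coefficients (`InQ`), and `2 α ≤ 3 k + 1` is the last third theorem of Levit and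
Mandrescu.
-/

set_option autoImplicit false
open N36365310

namespace Pool.Agent.Results.MP_24a1b5_co.ModeWindow

/-- The independence sequence of every forest is monotone outside a window of length `56 √n` around
the mean size `μ` of an independent set, and outside an explicit window in terms of `n` and `α`. -/
theorem result {V : Type*} [Fintype V] (G : SimpleGraph V) (hG : G.IsAcyclic) (μ : ℝ)
    (hμ : μ = (∑ j ∈ Finset.range (Fintype.card V + 1), (j : ℝ) * (indepSeq G j : ℝ)) /
      ∑ j ∈ Finset.range (Fintype.card V + 1), (indepSeq G j : ℝ)) (k : ℕ) :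
    (((k : ℝ) + 18 * Real.sqrt (Fintype.card V : ℝ) < μ ∨
      15 * (k : ℝ) + 11 * Real.sqrt (G.indepNum : ℝ) + 73 ≤ 7 * (G.indepNum : ℝ) ∨
      11 * (k : ℝ) + 8 * Real.sqrt (Fintype.card V : ℝ) + 64 ≤ 3 * (Fintype.card V : ℝ) ∨
      10 * (k : ℝ) + (Fintype.card V : ℝ) + 14 * Real.sqrt (G.indepNum : ℝ) + 78 ≤
        6 * (G.indepNum : ℝ) ∨
      45 * k + 20 ≤ 18 * G.indepNum ∨ 4 * k + 1 ≤ Fintype.card V) →
        indepSeq G k ≤ indepSeq G (k + 1)) ∧
    ((μ + 38 * Real.sqrt (Fintype.card V : ℝ) ≤ (k : ℝ) ∨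
      2 * (G.indepNum : ℝ) + (Fintype.card V : ℝ) + 5 * Real.sqrt ((k : ℝ) + 1) + 8 ≤
        6 * (k : ℝ) ∨
      2 * G.indepNum ≤ 3 * k + 1) → indepSeq G (k + 1) ≤ indepSeq G k) := by
  have hmn : Pool.Agent.Lib.MP_24a1b5_co.Gap.mn G 1 = μ := by
    rw [hμ, Pool.Agent.Lib.MP_24a1b5_co.Gap.mn_eq]
    simp only [Pool.Agent.Lib.MP_24a1b5_co.Gap.wt, one_pow, mul_one]
  refine ⟨fun hk => ?_, fun hk => ?_⟩
  · rcases hk with hk | hk | hk | hk | hk
    · exact Pool.Agent.Lib.MP_24a1b5_co.Gap.window_low G hG k (by rw [hmn]; exact hk)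
    · exact Pool.Agent.Lib.MP_24a1b5_co.Init.first G hG k hk
    · exact Pool.Agent.Lib.MP_24a1b5_co.Init.first_n G hG k hk
    · exact Pool.Agent.Lib.MP_24a1b5_co.Init.first_a G hG k hk
    · exact (Pool.Agent.Lib.MP_24a1b5_co.In.main' G hG k).2.2 hk
  · rcases hk with hk | hk | hk
    · exact Pool.Agent.Lib.MP_24a1b5_co.Gap.window_up G hG k (by rw [hmn]; exact hk)
    · exact Pool.Agent.Lib.MP_24a1b5_co.Init.last G hG k hk
    · have := Pool.Agent.Lib.MP_24a1b5_co.cnt_dec hG Finset.univ k
        (by rw [Pool.Agent.Lib.MP_24a1b5_co.In.alpha_univ]; exact hk)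
      rwa [← Pool.Agent.Lib.MP_24a1b5_co.In.indepSeq_eq_cnt,
        ← Pool.Agent.Lib.MP_24a1b5_co.In.indepSeq_eq_cnt] at this

end Pool.Agent.Results.MP_24a1b5_co.ModeWindow
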