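import Pool.Agent.Lib.MP_24a1b5_co.Br.Walk

/-!
# MP_24a1b5: log-concavity when all the vertices outside a path are leaves or have exactly one leaf
# neighbour and degree at most four

A forest `G` such that for each vertex `z` there is a path `p` in the component of `z` with: every
vertex `v` of the component which is not on `p` is a leaf, or has exactly one neighbour which is a leaf
and degree at most four. In particular: all forests of caterpillars, and the coronas `F ∘ K₁` of all
forests `F` with maximum degree at most three.
-/

set_option autoImplicit false
open N36365310

namespace Pool.Agent.Results.MP_24a1b5_co.OneLeafOffPath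

/-- The independence sequence of every forest, in which all the vertices of each component outside a
path are leaves or have degree at most four and exactly one leaf neighbour, is log-concave and
unimodal. -/
theorem result {V : Type*} [Fintype V] (G : SimpleGraph V) (hG : G.IsAcyclic)
    (h : ∀ z : V, ∃ (a b : V) (p : G.Walk a b), p.IsPath ∧ G.Reachable z a ∧
      ∀ v, G.Reachable z v → v ∉ p.support →
        (G.neighborSet v).ncard = 1 ∨ ((G.neighborSet v).ncard ≤ 4 ∧
          {w | G.Adj v w ∧ (G.neighborSet w).ncard = 1}.ncard = 1)) :
    (∀ k, indepSeq G k * indepSeq G (k + 2) ≤ indepSeq G (k + 1) ^ 2) ∧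
      UnimodalSeq (indepSeq G) :=
  Pool.Agent.Lib.MP_24a1b5_co.Br.main' G hG h

end Pool.Agent.Results.MP_24a1b5_co.OneLeafOffPath
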