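import Pool.Agent.Lib.MP_24a1b5_co.Wc

/-!
# MP_24a1b5: well-covered forests have log-concave independence sequences
-/

set_option autoImplicit false
open N36365310

namespace Pool.Agent.Results.MP_24a1b5_co.WellCoveredForests

/-- If all the maximal independent sets of a finite forest have the same cardinality `α` (the forest
is well-covered), then `(α - k) i_k i_{k+2} ≤ (α - k - 1) i_{k+1}²` for all `k`; in particular its
independence sequence is log-concave and unimodal. -/
theorem result {V : Type*} [Fintype V] (G : SimpleGraph V) (hG : G.IsAcyclic)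
    (hw : ∀ I J : Finset V, Maximal (fun s : Finset V => G.IsIndepSet (s : Set V)) I →
      Maximal (fun s : Finset V => G.IsIndepSet (s : Set V)) J → I.card = J.card) :
    (∀ k, ((G.indepNum : ℤ) - k) * (indepSeq G k * indepSeq G (k + 2)) ≤
        ((G.indepNum : ℤ) - k - 1) * indepSeq G (k + 1) ^ 2) ∧
      (∀ k, indepSeq G k * indepSeq G (k + 2) ≤ indepSeq G (k + 1) ^ 2) ∧
      UnimodalSeq (indepSeq G) :=
  Pool.Agent.Lib.MP_24a1b5_co.Wc.main' G hG hw

end Pool.Agent.Results.MP_24a1b5_co.WellCoveredForests
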